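import Pool.Agent.H99.ADJ.Base2
import Pool.Agent.H99.ADJ.Fin0

/-! # Project ADJ, module TWC: the disconnected case, deterministic part (balls) -/

set_option autoImplicit false

open Set Filter Topology

namespace Pool.ADJ

private theorem twc_bdd (v : Pl) (A : Set Pl) (hA : Bornology.IsBounded A) :
    Bornology.IsBounded ((fun y : Pl => y + v) '' A) := by
  obtain ⟨R, hR⟩ := hA.subset_closedBall 0
  refine (Metric.isBounded_closedBall (x := (0 : Pl)) (r := R + ‖v‖)).subset ?_
  rintro _ ⟨y, hy, rfl⟩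
  have h1 := hR hy
  rw [mem_closedBall_zero_iff] at h1 ⊢
  exact (norm_add_le y v).trans (by linarith)

theorem twc_thm (h_EXT : S_EXT) (h_INV : S_INV) : S_TWC := by
  intro f hf u hsep s t hsu hut ε hε
  obtain ⟨δ, hδ, hδ2⟩ := Metric.continuous_iff.1 hf u (ε / 2) (by positivity)
  obtain ⟨n, hn⟩ := exists_nat_one_div_lt (lt_min hδ (sub_pos.2 hut))
  obtain ⟨a, b, r, ha, hab, hb, hr, hinf⟩ := hsep n
  have hbδ : b < δ := lt_of_le_of_lt hb (lt_of_lt_of_le hn (min_le_left _ _))
  have hbt : b < t - u := lt_of_le_of_lt hb (lt_of_lt_of_le hn (min_le_right _ _))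
  have hKK : f '' Set.Icc (u + a) (u + b) ⊆ f '' Set.Icc s t :=
    image_mono (Icc_subset_Icc (by linarith) (by linarith))
  have hball : f '' Set.Icc (u + a) (u + b) ⊆ Metric.closedBall (f u) (ε / 2) := by
    rintro y ⟨v, hv, rfl⟩
    have h1 : dist v u < δ := by
      rw [Real.dist_eq, abs_lt]
      constructor <;> linarith [hv.1, hv.2]
    exact (hδ2 v h1).le
  generalize f '' Set.Icc (u + a) (u + b) = K' at *
  refine ⟨Metric.ball (f u) r, Metric.ball_mem_nhds _ hr, fun z hz hzK y hL => ?_⟩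
  by_contra hd
  push Not at hd
  have hy : y ∉ Metric.closedBall (f u) (ε / 2) := by
    rw [Metric.mem_closedBall]
    linarith
  have hyK : y ∉ K' := fun h => hy (hball h)
  have hz' : LinkedInf K' z :=
    ⟨y, hyK, (h_EXT.1 K' (f u) (ε / 2) hball y y hy hy).1, hL.mono hKK⟩
  refine hinf ⟨z - f u, by rwa [mem_ball_iff_norm] at hz, ?_⟩
  have h2 := h_INV (Homeomorph.addRight (-f u)) (fun A hA => twc_bdd (-f u) A hA)
    (fun A hA => by
      have := twc_bdd (f u) A hA
      rw [Homeomorph.addRight_symm, neg_neg]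
      exact this) K' z
  have h3 : (Homeomorph.addRight (-f u)) '' K' = (fun y => y - f u) '' K' := by
    ext x
    simp [sub_eq_add_neg]
  have h4 : (Homeomorph.addRight (-f u)) z = z - f u := by
    simp [sub_eq_add_neg]
  rw [h3, h4] at h2
  exact h2.2 hz'

end Pool.ADJ
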